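import Pool.Agent.MP_9ea0f9_al.H6.K3

namespace Pool.Agent.Results.MP_9ea0f9_al.PrimeFactors

/-- A von Neumann regular ring all of whose prime homomorphic images are unit-regular and all of
whose homomorphic images are directly finite, which is not unit-regular and has no nonzero
idempotent with a unit-regular corner ring. -/
theorem result :
    ∃ (R : Type) (_ : Ring R),
      (∀ a : R, ∃ x : R, a * x * a = a) ∧
      (∀ (S : Type) [Ring S] (f : R →+* S), Function.Surjective f →
        (∀ a b : S, (∀ r : S, a * r * b = 0) → a = 0 ∨ b = 0) →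
        ∀ a : S, ∃ u : Sˣ, a * (u : S) * a = a) ∧
      (∀ (S : Type) [Ring S] (f : R →+* S), Function.Surjective f →
        ∀ x y : S, x * y = 1 → y * x = 1) ∧
      (∃ a : R, ∀ u : Rˣ, a * (u : R) * a ≠ a) ∧
      ∀ g : R, g * g = g → g ≠ 0 → ∃ a : R, g * a * g = a ∧
        ∀ u v : R, g * u * g = u → g * v * g = v → u * v = g → v * u = g → a * u * a ≠ a :=
  Pool.Agent.MP_9ea0f9_al.H6.main

end Pool.Agent.Results.MP_9ea0f9_al.PrimeFactors
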